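import Pool.Agent.H87.CNF.Real

/-!
# A deterministic reduction from constraint satisfaction problems to Partial MCSP

The unknown is a `k × m` array `x` of bits. There are three kinds of constraints: an arbitrary
binary relation for every pair of rows, clauses of arbitrary width, and a branching program. Let
`n = k m`. If there are at most `2 ^ (n / g)` clauses, and if the branching program has at most
`2 ^ (n / g)` nodes and a running time `T` with `T log (number of nodes) ≤ n ^ 2 / g`, then the
reduction takes the time `2 ^ O(m + n / log g)`.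
-/

namespace Pool.Agent.Results.MP_d2e5f8_lc.CSPReduction

open Pool.Agent.H87.PMCSP Pool.Agent.H87.CNF Pool.Agent.PPS

/-- A polynomial-time computable function reduces constraint satisfaction problems, padded by a
number `K ≥ 2 ^ (C (m + k m / log g))` in unary, to Partial MCSP, and all the instances it
produces from such inputs have the size bound `s = n - 1`. -/
theorem result : ∃ (C : ℕ) (f : List Bool → List Bool), f ∈ FP ∧
    ∀ (k m K T : ℕ) (g : ℝ) (R : ℕ → ℕ → ℕ → ℕ → Bool) (F : List (Clause (k * m)))
      (P : Program (k * m)), 2 ≤ g → g ≤ k * m →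
      (F.length : ℝ) ≤ 2 ^ (k * m / g) → (P.length : ℝ) ≤ 2 ^ (k * m / g) →
      T * Real.logb 2 (P.length + 2) ≤ (k * m) ^ 2 / g →
      (2 : ℝ) ^ (C * (m + k * m / Real.logb 2 g)) ≤ K →
      (∃ (n : ℕ) (tab : List (Option Bool)),
        f (encodeCSP K k m T R F P) = encodeInstance n tab (n - 1)) ∧
      ((∃ x : Fin (k * m) → Bool, Solves R F P T x) ↔
        f (encodeCSP K k m T R F P) ∈ PartialMCSP) :=
  ⟨2 * C2, red2, red2_mem_FP, fun _ _ _ _ _ R F P h1 h2 h3 h4 h5 h6 =>
    ⟨red2_form _, red2_real R F P h1 h2 h3 h4 h5 h6⟩⟩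

end Pool.Agent.Results.MP_d2e5f8_lc.CSPReduction
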