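import Pool.Agent.H7LP.Final

/-!
# Linear programs do not separate small circuits from hard tables

`circuitPolytope n s` is the convex hull of the truth tables of the circuits on `n` inputs
with at most `s` gates. A linear relaxation is a set `K` that contains it and is the projection
of a polyhedron with `r` inequalities.
-/

namespace Pool.Agent.Results.MP_d2e5f8_lc.LPGap

open Pool.Agent.H87.PMCSP (circuitPolytope HasExtension)
open Pool.Agent.H7LP (Refutes)

/-- Let `s` be sufficiently large, `64 ≤ θ ≤ s ^ (1 / 16)` and `(log s) ^ 2 ≤ c n log θ`. The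
circuit polytope refutes, with margin `s ^ (- c s / θ)`, all partial truth tables that are hard
for circuits of size `θ ^ (c min (n / log s, √s))`, and every linear relaxation of the circuit
polytope that does so needs at least `s ^ (c s / θ)` inequalities. -/
theorem result : ∃ c > (0 : ℝ), ∃ s₀ : ℕ, ∀ (n s : ℕ) (θ : ℝ), s₀ ≤ s → 64 ≤ θ → θ ^ 16 ≤ s →
    Real.logb 2 s ^ 2 ≤ c * n * Real.logb 2 θ →
    Refutes (circuitPolytope n s) (θ ^ (c * min (n / Real.logb 2 s) (Real.sqrt s)))
      ((s : ℝ) ^ (-(c * s / θ))) ∧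
    ∀ (K : Set ((Fin n → Bool) → ℝ)) (r : ℕ), circuitPolytope n s ⊆ K →
      Refutes K (θ ^ (c * min (n / Real.logb 2 s) (Real.sqrt s))) ((s : ℝ) ^ (-(c * s / θ))) →
      HasExtension K r → (s : ℝ) ^ (c * s / θ) ≤ r := by
  refine ⟨1 / 10 ^ 24, by norm_num, 10 ^ 96, fun n s θ hs h64 h16 hbal => ?_⟩
  have hs' : (10 : ℝ) ^ 96 ≤ s := by exact_mod_cast hs
  refine ⟨Pool.Agent.H7LP.polytope_refutes rfl hs' h64 h16 hbal, fun K r hK hR hext => ?_⟩
  refine Pool.Agent.H7LP.general rfl (le_trans ?_ hs') h64 h16 hbal hK hR hext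
  norm_num

end Pool.Agent.Results.MP_d2e5f8_lc.LPGap
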