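import Pool.Agent.H24.Defs
import Pool.Agent.H24.UpperAll

/-!
The slices of Partial MCSP against circuits with up to `(1 - ε) * min s n` NOT gates. The
definitions are in `Pool/Agent/H24/Defs.lean`, the proof is in `Pool/Agent/H24/UpperAll.lean` and
the files it imports.
-/

namespace Pool.Agent.Results.MP_d2e5f8_lc.LogNegations

open Pool.Agent.H24

/-- **Lower bound for Partial MCSP against circuits with almost `log N` NOT gates.** For every
`ε > 0` there is a constant `C` such that for all `n, s ≥ 1`:
* some circuit without NOT gates and with at most `2 ^ (C (n + s log (n + s)))` gates decides, for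
  all partial truth tables `T` of arity `n` given by the `2 ^ (n + 1)` bits
  `value b is allowed at x`, whether a circuit of size at most `s` is consistent with `T`;
* if `s ≤ 2 ^ (n / C)`, every circuit with `r ≤ (1 - ε) min (s, n)` NOT gates that decides this
  has `t` AND/OR gates with `2 ^ (n + min (s, n) log n) ≤ (t + 2) ^ C`. -/
theorem result (ε : ℝ) (hε : 0 < ε) : ∃ C : ℕ, 1 ≤ C ∧ ∀ n s : ℕ, 1 ≤ n → 1 ≤ s →
    (∃ (t : ℕ) (L : List (((Fin n → Bool) × Bool → Bool) → Bool))
      (F : ((Fin n → Bool) × Bool → Bool) → Bool), NegCircuit t 0 L ∧ Source L F ∧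
      (∀ T : (Fin n → Bool) → Option Bool, F (enc T) = true ↔ PartialMCSP T s) ∧
      t ≤ 2 ^ (C * (n + s * Nat.log 2 (n + s)))) ∧
    (s ≤ 2 ^ (n / C) → ∀ (t r : ℕ) (L : List (((Fin n → Bool) × Bool → Bool) → Bool))
      (F : ((Fin n → Bool) × Bool → Bool) → Bool), (r:ℝ) ≤ (1 - ε) * (min s n : ℕ) →
      NegCircuit t r L → Source L F →
      (∀ T : (Fin n → Bool) → Option Bool, F (enc T) = true ↔ PartialMCSP T s) →
      2 ^ (n + min s n * Nat.log 2 n) ≤ (t + 2) ^ C) :=
  neg_all ε hε

end Pool.Agent.Results.MP_d2e5f8_lc.LogNegations
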