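import Pool.Agent.H24.Defs
import Pool.Agent.H24.Many2

/-!
Exponential lower bounds for Partial MCSP (also in a gap version) against circuits with up to a
constant times `n` NOT gates. The definitions are in `Pool/Agent/H24/Defs.lean`, the proof is in
`Pool/Agent/H24/Many2.lean` and the files it imports.
-/

namespace Pool.Agent.Results.MP_d2e5f8_lc.ManyNegations

open Pool.Agent.H24

/-- **Exponential lower bound for Partial MCSP against circuits with many NOT gates.** There is a
constant `C` such that the following holds for all `1 ≤ m ≤ n`, `w, b ≥ 1` and all `r, s, S` with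
`C 2^r w m³ ≤ s b` and `C 2^r w² m² 4^b (S + 1) ≤ 2^m`: a circuit with `t` AND/OR gates and `r`
NOT gates that reads a partial truth table of arity `n` through the `2^(n+1)` bits `value b is
allowed at x`, accepts every table with a consistent circuit of size at most `s` and rejects
every table without a consistent circuit of size at most `S`, satisfies `2^(b w) ≤ 2^r t`. -/
theorem result :
    ∃ C : ℕ, ∀ n m w r b s S : ℕ, 1 ≤ m → m ≤ n → 1 ≤ w → 1 ≤ b →
      C * 2 ^ r * w * m ^ 3 ≤ s * b →
      C * 2 ^ r * w ^ 2 * m ^ 2 * 4 ^ b * (S + 1) ≤ 2 ^ m →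
      ∀ (t : ℕ) (L : List (((Fin n → Bool) × Bool → Bool) → Bool))
        (F : ((Fin n → Bool) × Bool → Bool) → Bool),
        NegCircuit t r L → Source L F →
        (∀ T : (Fin n → Bool) → Option Bool, PartialMCSP T s → F (enc T) = true) →
        (∀ T : (Fin n → Bool) → Option Bool, ¬ PartialMCSP T S → F (enc T) = false) →
        2 ^ (b * w) ≤ 2 ^ r * t :=
  many_negations2

end Pool.Agent.Results.MP_d2e5f8_lc.ManyNegations
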